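import Mathlib
import Pool.Agent.TH409.FB.Geo

set_option autoImplicit false

/-!
# Sparse points of varieties over function fields have bounded height

Let `k` be an algebraically closed field of characteristic zero, `K` an extension field of `k`, and
`X` a projective variety over `K` (constant or not), given in projective `n`-space by a set `GG` of
forms of degree at most `d`; let `c` be a vector over `K` whose entries contain `1` and all
coefficients of these forms. Let `r ≥ 1`.

* If `X` is irreducible and not uniruled, there is a proper closed subset `Z` of `X`, the zeros of a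
  form `G` over `K`, such that for every function field `L ⊇ K` of one variable over `k`, every
  `t ∈ L`, all exponents `l_1, …, l_r` and all vectors `v_1, …, v_r` over `L`: if the point
  `x = ∑ t ^ (l_j) v_j` of projective space lies on `X` and not on `Z`, then
  `h(x) ≤ (1 + 8 (4 d) ^ r) (d h(v) + h(c))`.
* If `X` contains no rational curve over any extension field of `K`, the same holds with `Z` empty.

Here `h(x) = deg k x` is the height over `L`: minus the sum over the places of `L` of the minimum of
the orders of the nonzero coordinates, the degree of the corresponding map from the curve to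
projective space.
-/

namespace Pool.Agent.Results.MP_46885d_ag.SparsePointsBoundedHeight

open FF MvPolynomial Pool.Agent.TH409.SH Pool.Agent.TH409.FB Pool.Agent.H533R3.SL

theorem result (k K : Type) [Field k] [CharZero k] [IsAlgClosed k] [Field K] [Algebra k K] (n : ℕ)
    (GG : Set (MvPolynomial (Fin (n + 1)) K)) (d : ℕ) (hd : 1 ≤ d)
    (hG : ∀ F ∈ GG, ∃ e, e ≤ d ∧ F.IsHomogeneous e) (s : ℕ) (c : Fin s → K)
    (hc : CoeffsIn c GG) (r : ℕ) (hr : 1 ≤ r) :
    ((Ideal.span GG).IsPrime → ¬ Uniruled (Ideal.span GG) →
      ∃ G : MvPolynomial (Fin (n + 1)) K, (∃ e, G.IsHomogeneous e) ∧ G ∉ Ideal.span GG ∧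
        ∀ (L : Type) [Field L] [Algebra k L] [Algebra K L] [IsScalarTower k K L] [IsFF k L]
          (t : L) (l : Fin r → ℕ) (v : Fin r → Fin (n + 1) → L) (x : Fin (n + 1) → L),
          OnSparse t l v x → (∀ F ∈ GG, aeval x F = 0) → aeval x G ≠ 0 →
          deg k x ≤ (1 + 8 * (4 * d) ^ r) *
            (d * deg k (fun q : Fin r × Fin (n + 1) => v q.1 q.2) +
              deg k (fun i => algebraMap K L (c i)))) ∧
    (NoRatExt GG →
      ∀ (L : Type) [Field L] [Algebra k L] [Algebra K L] [IsScalarTower k K L] [IsFF k L]
        (t : L) (l : Fin r → ℕ) (v : Fin r → Fin (n + 1) → L) (x : Fin (n + 1) → L),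
        OnSparse t l v x → (∀ F ∈ GG, aeval x F = 0) →
        deg k x ≤ (1 + 8 * (4 * d) ^ r) *
          (d * deg k (fun q : Fin r × Fin (n + 1) => v q.1 q.2) +
            deg k (fun i => algebraMap K L (c i)))) :=
  geo k K GG d hd hG c hc hr

end Pool.Agent.Results.MP_46885d_ag.SparsePointsBoundedHeight
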